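import Pool.Agent.QSN.StmtsD

set_option autoImplicit false

/-! # Row SLR: the regular algebras are division algebras of the right dimension -/

namespace Pool.Agent.QSN.H67

open Matrix Finset Pool.Agent.QSX

theorem slr : SlrStmt := by
  intro k A _ _ b
  have hinj : Function.Injective (Algebra.leftMulMatrix b) := Algebra.leftMulMatrix_injective b
  refine ⟨?_, ?_⟩
  · rintro ⟨x, a, ha⟩ hx
    have ha0 : a ≠ 0 := by
      intro h0
      apply hx
      apply Subtype.ext
      show x = 0
      rw [← ha, h0]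
      exact map_zero (Algebra.leftMulMatrix b)
    refine ⟨⟨Algebra.leftMulMatrix b a⁻¹, ⟨a⁻¹, rfl⟩⟩, ?_⟩
    apply Subtype.ext
    show x * Algebra.leftMulMatrix b a⁻¹ = 1
    rw [← ha]
    show Algebra.leftMulMatrix b a * Algebra.leftMulMatrix b a⁻¹ = 1
    rw [← map_mul, mul_inv_cancel₀ ha0, map_one]
  · have e : A ≃ₗ[ℝ] reg A b :=
      (AlgEquiv.ofInjective (Algebra.leftMulMatrix b) hinj).toLinearEquiv
    rw [← e.finrank_eq, Module.finrank_eq_card_basis b, Fintype.card_fin]

end Pool.Agent.QSN.H67
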